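import Pool.Agent.Q114.KC.Lower

/-!
# Turán numbers of `k` disjoint cliques for all `n` (MP_4c03a7_co)

`cliques k p` is the graph `k K_p` (the disjoint union of `k` copies of `K_p`), on the vertex set
`Fin k × Fin p`; `extremalNumber n H` is Mathlib's Turán number `ex(n, H)` and `turanGraph m r`
Mathlib's Turán graph `T_{m,r}`.

The theorem proves the formula of the question for all `k ≥ 2`, `p ≥ 2` with
`(k - 1) p - k ^ 2 + 3 k - 3 ≥ 0` (the question has `k ≥ 5`, `p ≥ 3`) and all `n` of the two ranges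
of the question.
-/

set_option autoImplicit false

namespace Pool.Agent.Results.MP_4c03a7_co.AllN

open Q114.KC SimpleGraph

/-- **Q1 holds.** First range: `kp + k² - 3k + 1 ≤ n ≤ (2k-1)p - 2`. Second range:
`n ≥ (2k-1)p - 1`. -/
theorem result (p k n : ℕ) (hp : 2 ≤ p) (hk : 2 ≤ k)
    (hkp : 0 ≤ ((k : ℤ) - 1) * p - k ^ 2 + 3 * k - 3) :
    ((k : ℤ) * p + k ^ 2 - 3 * k + 1 ≤ n → (n : ℤ) ≤ (2 * k - 1) * p - 2 →
      (extremalNumber n (cliques k p) : ℤ) =
        (n.choose 2 : ℤ) - (2 * k - 1) * (n - k * p + 1)) ∧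
    ((2 * (k : ℤ) - 1) * p - 1 ≤ n →
      extremalNumber n (cliques k p) =
        (k - 1).choose 2 + (k - 1) * (n - k + 1) +
          (turanGraph (n - k + 1) (p - 1)).edgeFinset.card) := by
  classical
  obtain ⟨l, rfl⟩ : ∃ l, k = l + 2 := ⟨k - 2, by omega⟩
  have hkp' : l + 2 ≤ p + 1 := by
    by_contra hlt
    have h1 : (p : ℤ) ≤ l := by
      have : p ≤ l := by omega
      exact_mod_cast this
    push_cast at hkp
    nlinarith
  constructor
  · intro h1 h2
    push_cast at h1 h2
    obtain ⟨m, hm⟩ : ∃ m : ℕ, n + 1 = (l + 2) * p + m := by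
      have h3 : (l + 2) * p ≤ n + 1 := by
        have h4 : (((l + 2) * p : ℕ) : ℤ) ≤ ((n + 1 : ℕ) : ℤ) := by
          push_cast
          nlinarith [sq_nonneg (l : ℤ)]
        exact_mod_cast h4
      obtain ⟨m, hm⟩ := Nat.exists_eq_add_of_le h3
      exact ⟨m, hm⟩
    have hmz : (m : ℤ) = n + 1 - (l + 2) * p := by
      have : ((n + 1 : ℕ) : ℤ) = (((l + 2) * p + m : ℕ) : ℤ) := by rw [hm]
      push_cast at this
      linarith
    have hml : (l + 2 - 1) * (l + 2 - 2) ≤ m := by
      have e1 : l + 2 - 1 = l + 1 := by omega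
      have e2 : l + 2 - 2 = l := by omega
      rw [e1, e2]
      have : (((l + 1) * l : ℕ) : ℤ) ≤ (m : ℤ) := by
        rw [hmz]; push_cast; nlinarith
      exact_mod_cast this
    have hn2 : n + 2 ≤ (2 * (l + 2) - 1) * p := by
      have e3 : 2 * (l + 2) - 1 = 2 * l + 3 := by omega
      rw [e3]
      have : ((n + 2 : ℕ) : ℤ) ≤ (((2 * l + 3) * p : ℕ) : ℤ) := by
        push_cast; nlinarith
      exact_mod_cast this
    obtain ⟨hlow, hle⟩ := lower1 (l + 2) p n m (by omega) hkp' hm hml hn2
    have hup := ex_le (n := n) (k := l + 2) (p := p) (B := (2 * (l + 2) - 1) * m) (by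
      intro H hH
      apply star H (l + 2) p m n Finset.univ
      · rw [Finset.card_univ, Fintype.card_fin]
      · rw [Finset.card_univ, Fintype.card_fin]; exact hm
      · rw [mul_assoc]; exact hH)
    have e3 : 2 * (l + 2) - 1 = 2 * l + 3 := by omega
    rw [e3] at hlow hup hle
    have h5 : extremalNumber n (cliques (l + 2) p) + (2 * l + 3) * m = n.choose 2 := by omega
    have h6 : (extremalNumber n (cliques (l + 2) p) : ℤ) + (2 * l + 3) * m = n.choose 2 := by
      exact_mod_cast h5
    push_cast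
    rw [hmz] at h6
    linarith
  · intro h1
    push_cast at h1
    have hn : (2 * (l + 2) - 1) * p ≤ n + 1 := by
      have e3 : 2 * (l + 2) - 1 = 2 * l + 3 := by omega
      rw [e3]
      have : (((2 * l + 3) * p : ℕ) : ℤ) ≤ ((n + 1 : ℕ) : ℤ) := by
        push_cast; nlinarith
      exact_mod_cast this
    obtain ⟨N, hN⟩ : ∃ N, N = n - (l + 2) + 1 := ⟨_, rfl⟩
    have hnl : l + 1 ≤ n := by
      have : 2 * (l + 2) - 1 ≤ (2 * (l + 2) - 1) * p := Nat.le_mul_of_pos_right _ (by omega)
      omega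
    have hnl2 : l + 2 ≤ n := by
      have : (2 * (l + 2) - 1) * 2 ≤ (2 * (l + 2) - 1) * p := Nat.mul_le_mul_left _ hp
      omega
    have hnN : l + 2 - 1 + N = n := by omega
    have hlow := lower2 (l + 2) p N (by omega) hp
    rw [hnN] at hlow
    have hup := ex_le (n := n) (k := l + 2) (p := p) (B := tt (p - 1) N) (by
      intro H hH
      apply second H (l + 2) p (by omega) hp hkp' (n + 2 - (2 * (l + 2) - 1) * p) Finset.univ
      · rw [Finset.card_univ, Fintype.card_fin]; omega
      · rw [Finset.card_univ, Fintype.card_fin]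
        have : n + 1 - (l + 2) = N := by omega
        rw [this]; exact hH)
    have h2 := choose_two_add (l + 2 - 1) N
    rw [hnN] at h2
    have h3 := turan_edges (p - 1) (by omega) N
    rw [← hN]
    omega

end Pool.Agent.Results.MP_4c03a7_co.AllN
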